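import Pool.Agent.P.MP_d36490_an.Szego

set_option autoImplicit false

open Finset Polynomial

namespace Pool.Agent.P.MP_d36490_an

/-- rising factorial -/
noncomputable def poch (x : ℂ) (j : ℕ) : ℂ := (ascPochhammer ℂ j).eval x

lemma poch_zero (x : ℂ) : poch x 0 = 1 := by simp [poch]

lemma poch_succ (x : ℂ) (j : ℕ) : poch x (j + 1) = poch x j * (x + j) := by
  simp [poch, ascPochhammer_succ_eval]

lemma poch_one (j : ℕ) : poch 1 j = (j.factorial : ℂ) := by
  simp [poch]

lemma poch_ne_zero (x : ℂ) (hx : ∀ m : ℕ, x ≠ -(m : ℂ)) (j : ℕ) : poch x j ≠ 0 := by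
  induction j with
  | zero => simp [poch_zero]
  | succ j ih =>
    rw [poch_succ]
    refine mul_ne_zero ih (fun h => hx j ?_)
    linear_combination h

lemma poch_neg_nat (n j : ℕ) :
    poch (-(n : ℂ)) j = (-1) ^ j * (n.choose j : ℂ) * (j.factorial : ℂ) := by
  induction j with
  | zero => simp [poch_zero]
  | succ j ih =>
    rw [poch_succ, ih]
    rcases le_or_gt j n with h | h
    · have h1 := Nat.choose_succ_right_eq n j
      have h2 : (n.choose (j + 1) : ℂ) * ((j : ℂ) + 1) = (n.choose j : ℂ) * ((n : ℂ) - j) := by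
        have := congrArg (Nat.cast : ℕ → ℂ) h1
        push_cast [h] at this
        exact this
      rw [Nat.factorial_succ]
      push_cast
      linear_combination ((-1) ^ j * (j.factorial : ℂ)) * h2
    · rw [Nat.choose_eq_zero_of_lt h, Nat.choose_eq_zero_of_lt (Nat.lt_succ_of_lt h)]
      simp

lemma E_mul_index (n : ℕ) (a : ℕ → ℂ) (w : ℂ) :
    E (n + 1) (fun m => (m : ℂ) * a m) w = (n + 1) * w * E n (fun m => a (m + 1)) w := by
  unfold E
  rw [Finset.sum_range_succ', Finset.mul_sum]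
  simp only [Nat.cast_zero, mul_zero, zero_mul, add_zero]
  apply Finset.sum_congr rfl
  intro m _
  have h := Nat.add_one_mul_choose_eq n m
  have h' : ((n : ℂ) + 1) * (n.choose m : ℂ) = ((n + 1).choose (m + 1) : ℂ) * ((m : ℂ) + 1) := by
    exact_mod_cast h
  push_cast
  linear_combination (-(a (m + 1)) * w ^ (m + 1)) * h'

noncomputable def G (x w : ℂ) (N : ℕ) : ℂ := E N (fun m => poch x (N - m)) w

lemma G_zero (x w : ℂ) : G x w 0 = 1 := by simp [G, E, poch_zero]

lemma G_one (x w : ℂ) : G x w 1 = x + w := by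
  simp [G, E, Finset.sum_range_succ, poch]

lemma G_rec (x w : ℂ) (N : ℕ) :
    G x w (N + 2) = ((N : ℂ) + 1 + x + w) * G x w (N + 1) - ((N : ℂ) + 1) * w * G x w N := by
  have h1 := E_succ (N + 1) (fun m => poch x (N + 2 - m)) w
  have h2 := E_mul_index N (fun m => poch x (N + 1 - m)) w
  have h3 : E (N + 1) (fun m => poch x (N + 2 - m)) w
      = (x + N + 1) * E (N + 1) (fun m => poch x (N + 1 - m)) w
        - E (N + 1) (fun m => (m : ℂ) * poch x (N + 1 - m)) w := by
    unfold E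
    rw [Finset.mul_sum, ← Finset.sum_sub_distrib]
    apply Finset.sum_congr rfl
    intro m hm
    have hm' : m ≤ N + 1 := Nat.lt_succ_iff.1 (Finset.mem_range.1 hm)
    have e : N + 2 - m = (N + 1 - m) + 1 := by omega
    simp only
    rw [e, poch_succ]
    push_cast [hm']
    ring
  have e1 : (fun m => poch x (N + 2 - (m + 1))) = fun m => poch x (N + 1 - m) := by
    funext m; congr 1; omega
  have e2 : (fun m => poch x (N + 1 - (m + 1))) = fun m => poch x (N - m) := by
    funext m; congr 1; omega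
  simp only [e1] at h1
  simp only [e2] at h2
  unfold G
  rw [h1, h3, h2]
  ring

lemma G_grow (x w : ℂ) (h : 2 * ‖w‖ + 1 ≤ x.re) (N : ℕ) :
    G x w N ≠ 0 ∧ ((N : ℝ) + 1) * ‖G x w N‖ ≤ ‖G x w (N + 1)‖ := by
  induction N with
  | zero =>
    refine ⟨by simp [G_zero], ?_⟩
    rw [G_zero, zero_add, G_one]
    have h1 := Complex.re_le_norm (x + w)
    have h2 := Complex.abs_re_le_norm w
    have h3 := neg_abs_le w.re
    simp only [Complex.add_re] at h1
    simp only [Nat.cast_zero, zero_add, norm_one, mul_one]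
    linarith [norm_nonneg w]
  | succ N ih =>
    obtain ⟨h0, h1⟩ := ih
    have hpos : 0 < ‖G x w N‖ := norm_pos_iff.2 h0
    have hne : G x w (N + 1) ≠ 0 := by
      rw [← norm_pos_iff]
      have : (0 : ℝ) < ((N : ℝ) + 1) * ‖G x w N‖ := by positivity
      linarith
    refine ⟨hne, ?_⟩
    rw [G_rec]
    have h2 := norm_sub_norm_le (((N : ℂ) + 1 + x + w) * G x w (N + 1))
      (((N : ℂ) + 1) * w * G x w N)
    rw [norm_mul, norm_mul, norm_mul] at h2
    have h3 : ‖(N : ℂ) + 1‖ = (N : ℝ) + 1 := by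
      have : ((N : ℂ) + 1) = ((N + 1 : ℕ) : ℂ) := by push_cast; ring
      rw [this, Complex.norm_natCast]; push_cast; ring
    have h4 : (N : ℝ) + 1 + x.re - ‖w‖ ≤ ‖(N : ℂ) + 1 + x + w‖ := by
      have h5 := Complex.re_le_norm ((N : ℂ) + 1 + x + w)
      have h6 := Complex.abs_re_le_norm w
      have h7 := neg_abs_le w.re
      simp only [Complex.add_re, Complex.natCast_re, Complex.one_re] at h5
      linarith
    rw [h3] at h2
    have h8 := mul_le_mul_of_nonneg_left h1 (norm_nonneg w)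
    have h9 := mul_le_mul_of_nonneg_right h4 (norm_nonneg (G x w (N + 1)))
    have h10 := mul_le_mul_of_nonneg_right h (norm_nonneg (G x w (N + 1)))
    push_cast
    nlinarith

/-- the Bessel factor -/
lemma ZF_bessel (lam : ℂ) (n : ℕ) (hn : 2 * ‖lam‖ + 4 ≤ n) :
    ZF n (fun m => poch ((n : ℂ) + lam) (n - m)) (n / 8) := by
  intro w hw
  refine (G_grow ((n : ℂ) + lam) w ?_ n).1
  have h6 := Complex.abs_re_le_norm lam
  have h7 := neg_abs_le lam.re
  simp only [Complex.add_re, Complex.natCast_re]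
  linarith [norm_nonneg lam]

/-- partial sums of the exponential series -/
lemma ZF_fact (n : ℕ) : ZF n (fun m => poch 1 (n - m)) (n / 20) := by
  intro w hw h0
  have e : E n (fun m => poch 1 (n - m)) w
      = (n.factorial : ℂ) * ∑ m ∈ range (n + 1), w ^ m / m.factorial := by
    unfold E
    rw [Finset.mul_sum]
    apply Finset.sum_congr rfl
    intro m hm
    have hm' : m ≤ n := Nat.lt_succ_iff.1 (Finset.mem_range.1 hm)
    have h1 := Nat.choose_mul_factorial_mul_factorial hm'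
    have h2 : (n.choose m : ℂ) * m.factorial * (n - m).factorial = n.factorial := by
      exact_mod_cast h1
    have h3 : (m.factorial : ℂ) ≠ 0 := by exact_mod_cast m.factorial_ne_zero
    simp only [poch_one]
    rw [← h2]
    field_simp
  rw [e] at h0
  have h1 : (n.factorial : ℂ) ≠ 0 := by exact_mod_cast n.factorial_ne_zero
  have h2 := (mul_eq_zero.1 h0).resolve_left h1
  have hw0 := norm_nonneg w
  have hN : (0 : ℝ) < (n : ℝ) + 1 := by positivity
  have h3 := Complex.exp_bound' (x := w) (n := n + 1) (by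
    rw [div_le_iff₀ (by positivity)]
    push_cast
    linarith)
  rw [h2, sub_zero, Complex.norm_exp] at h3
  have h4 : ‖w‖ ^ (n + 1) ≤ (((n : ℝ) + 1) / 20) ^ (n + 1) :=
    pow_le_pow_left₀ hw0 (by linarith) _
  have h5 := Real.pow_div_factorial_le_exp ((n : ℝ) + 1) hN.le (n + 1)
  have h6 : ‖w‖ ^ (n + 1) / ((n + 1).factorial : ℝ)
      ≤ Real.exp ((n : ℝ) + 1) / 20 ^ (n + 1) := by
    calc ‖w‖ ^ (n + 1) / ((n + 1).factorial : ℝ)
        ≤ (((n : ℝ) + 1) / 20) ^ (n + 1) / ((n + 1).factorial : ℝ) := by gcongr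
      _ = (((n : ℝ) + 1) ^ (n + 1) / ((n + 1).factorial : ℝ)) / 20 ^ (n + 1) := by
          rw [div_pow]; ring
      _ ≤ _ := by gcongr
  have h7 : Real.exp (-((n : ℝ) + 1)) ≤ Real.exp w.re := by
    apply Real.exp_le_exp.2
    have h8 := Complex.abs_re_le_norm w
    have h9 := neg_abs_le w.re
    linarith
  have h10 : Real.exp ((n : ℝ) + 1) = Real.exp 1 ^ (n + 1) := by
    rw [← Real.exp_nat_mul]; congr 1; push_cast; ring
  have h11 : Real.exp (-((n : ℝ) + 1)) * Real.exp ((n : ℝ) + 1) = 1 := by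
    rw [← Real.exp_add]; simp
  have h12 : (1 : ℝ) ≤ Real.exp ((n : ℝ) + 1) / 20 ^ (n + 1) * 2 * Real.exp ((n : ℝ) + 1) := by
    have := Real.exp_pos ((n : ℝ) + 1)
    nlinarith
  have h13 : Real.exp ((n : ℝ) + 1) / 20 ^ (n + 1) * 2 * Real.exp ((n : ℝ) + 1)
      = 2 * (Real.exp 1 * Real.exp 1 / 20) ^ (n + 1) := by
    rw [h10, div_pow, mul_pow]; ring
  have h14 : Real.exp 1 * Real.exp 1 / 20 ≤ 0.4 := by
    have := Real.exp_one_lt_d9
    have := Real.exp_pos 1
    nlinarith
  have h15 : (Real.exp 1 * Real.exp 1 / 20) ^ (n + 1) ≤ 0.4 := by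
    have hp : 0 ≤ Real.exp 1 * Real.exp 1 / 20 := by positivity
    calc _ ≤ (Real.exp 1 * Real.exp 1 / 20) ^ 1 :=
          pow_le_pow_of_le_one hp (by linarith) (by omega)
      _ ≤ _ := by simpa using h14
  linarith

lemma geom_ne_zero (t : ℕ → ℂ) (n : ℕ) (h0 : t 0 ≠ 0)
    (h : ∀ i < n, 3 * ‖t (i + 1)‖ ≤ ‖t i‖) : ∑ i ∈ range (n + 1), t i ≠ 0 := by
  have key : ∀ k ≤ n, ‖∑ i ∈ range (k + 1), t i - t 0‖ ≤ ‖t 0‖ / 2 - ‖t k‖ / 2 := by
    intro k
    induction k with
    | zero => intro _; simp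
    | succ k ih =>
      intro hk
      have h1 := ih (by omega)
      have h2 := h k (by omega)
      rw [Finset.sum_range_succ, add_sub_right_comm]
      have := norm_add_le (∑ i ∈ range (k + 1), t i - t 0) (t (k + 1))
      linarith
  intro hs
  have h1 := key n le_rfl
  rw [hs, zero_sub, norm_neg] at h1
  have := norm_pos_iff.2 h0
  linarith [norm_nonneg (t n)]

lemma binom_transform (w : ℂ) (n : ℕ) : ∀ d : ℕ → ℂ,
    E n (fun m => E m d 1) w
      = ∑ i ∈ range (n + 1), (n.choose i : ℂ) * (d i * w ^ i * (1 + w) ^ (n - i)) := by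
  induction n with
  | zero => intro d; simp [E]
  | succ n ih =>
    intro d
    rw [E_succ, Finset.sum_choose_succ_mul (fun i j => d i * w ^ i * (1 + w) ^ j) n]
    have e : E n (fun m => E (m + 1) d 1) w
        = E n (fun m => E m d 1) w + E n (fun m => E m (fun i => d (i + 1)) 1) w := by
      simp only [E_succ]
      unfold E
      rw [← Finset.sum_add_distrib]
      apply Finset.sum_congr rfl
      intro m _
      ring
    rw [e, ih, ih, mul_add, ← add_assoc, Finset.mul_sum, Finset.mul_sum, ← Finset.sum_add_distrib]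
    congr 1
    · apply Finset.sum_congr rfl
      intro m hm
      have hm' : m ≤ n := Nat.lt_succ_iff.1 (Finset.mem_range.1 hm)
      have e2 : n + 1 - m = (n - m) + 1 := by omega
      rw [e2]; ring
    · apply Finset.sum_congr rfl
      intro m _
      ring

lemma diff_table (a b : ℂ) (hb : ∀ m : ℕ, b ≠ -(m : ℂ)) (n : ℕ) (m : ℕ) : ∀ i, m + i ≤ n →
    poch (b - a) i * poch a (n - m - i) / poch b (n - m)
      = E m (fun t => poch (b - a) (i + t) * poch a (n - (i + t)) / poch b n) 1 := by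
  induction m with
  | zero => intro i _; simp [E]
  | succ m ih =>
    intro i hi
    rw [E_succ, ← ih i (by omega)]
    have h2 := ih (i + 1) (by omega)
    have e : (fun t => poch (b - a) (i + 1 + t) * poch a (n - (i + 1 + t)) / poch b n)
        = fun t => poch (b - a) (i + (t + 1)) * poch a (n - (i + (t + 1))) / poch b n := by
      funext t
      rw [show i + 1 + t = i + (t + 1) by ring]
    rw [e] at h2
    rw [← h2]
    obtain ⟨k, rfl⟩ := Nat.exists_eq_add_of_le hi
    have e1 : m + 1 + i + k - (m + 1) - i = k := by omega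
    have e2 : m + 1 + i + k - (m + 1) = i + k := by omega
    have e3 : m + 1 + i + k - m - i = k + 1 := by omega
    have e4 : m + 1 + i + k - m = (i + k) + 1 := by omega
    have e5 : m + 1 + i + k - m - (i + 1) = k := by omega
    rw [e1, e2, e3, e5, e4, poch_succ, poch_succ, poch_succ]
    have h3 := poch_ne_zero b hb (i + k)
    have h4 : b + ((i + k : ℕ) : ℂ) ≠ 0 := fun h => hb (i + k) (by linear_combination h)
    field_simp
    push_cast
    ring

lemma exists_K (a : ℂ) (ha : ∀ m : ℕ, a ≠ -(m : ℂ)) :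
    ∃ K : ℝ, 1 ≤ K ∧ ∀ N : ℕ, (N : ℝ) + 1 ≤ K * ‖a + N‖ := by
  obtain ⟨M, hM⟩ := exists_nat_ge (2 * ‖a‖ + 1)
  obtain ⟨K, hK⟩ := ((Set.finite_lt_nat M).image
    (fun N : ℕ => ((N : ℝ) + 1) / ‖a + N‖)).bddAbove
  refine ⟨max K 2, le_trans (by norm_num) (le_max_right _ _), fun N => ?_⟩
  have hpos : 0 < ‖a + N‖ := norm_pos_iff.2 (fun h => ha N (by linear_combination h))
  rcases lt_or_ge N M with h | h
  · have h1 : ((N : ℝ) + 1) / ‖a + N‖ ≤ K := hK ⟨N, h, rfl⟩
    rw [div_le_iff₀ hpos] at h1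
    have := mul_le_mul_of_nonneg_right (le_max_left K 2) hpos.le
    linarith
  · have h1 : (M : ℝ) ≤ N := by exact_mod_cast h
    have h2 := Complex.re_le_norm (a + N)
    have h6 := Complex.abs_re_le_norm a
    have h7 := neg_abs_le a.re
    simp only [Complex.add_re, Complex.natCast_re] at h2
    have := mul_le_mul_of_nonneg_right (le_max_right K 2) hpos.le
    linarith

/-- the Gauss factor, through the Pfaff transformation -/
lemma ZF_ratio (a b : ℂ) (ha : ∀ m : ℕ, a ≠ -(m : ℂ)) (hb : ∀ m : ℕ, b ≠ -(m : ℂ)) :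
    ∃ r : ℝ, 0 < r ∧ ∀ n : ℕ, ZF n (fun m => poch a (n - m) / poch b (n - m)) r := by
  obtain ⟨K, hK1, hK⟩ := exists_K a ha
  set L : ℝ := K * (1 + ‖b - a‖) with hL
  have hL1 : 1 ≤ L := by nlinarith [norm_nonneg (b - a)]
  refine ⟨1 / (6 * L), by positivity, fun n => ?_⟩
  apply ZF_congr n
    (fun m => E m (fun t => poch (b - a) t * poch a (n - t) / poch b n) 1)
  · intro m hm
    have := diff_table a b hb n m 0 (by omega)
    simp only [zero_add, poch_zero, one_mul, Nat.sub_zero] at this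
    exact this.symm
  intro w hw
  rw [binom_transform]
  have hw0 := norm_nonneg w
  have hw1 : 6 * L * ‖w‖ < 1 := by
    rw [lt_div_iff₀ (by positivity)] at hw
    linarith
  have hw2 : 1 / 2 ≤ ‖1 + w‖ := by
    have h1 := norm_sub_norm_le (1 : ℂ) (-w)
    simp only [norm_one, norm_neg, sub_neg_eq_add] at h1
    nlinarith
  have hw3 : (1 + w) ≠ 0 := by
    rw [← norm_pos_iff]; linarith
  apply geom_ne_zero
  · simp only [Nat.choose_zero_right, Nat.cast_one, poch_zero, one_mul, pow_zero, mul_one,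
      Nat.sub_zero]
    exact mul_ne_zero (div_ne_zero (poch_ne_zero a ha n) (poch_ne_zero b hb n)) (pow_ne_zero _ hw3)
  · intro i hi
    obtain ⟨k, rfl⟩ := Nat.exists_eq_add_of_lt hi
    have e1 : i + k + 1 - (i + 1) = k := by omega
    have e2 : i + k + 1 - i = k + 1 := by omega
    rw [e1, e2, poch_succ (b - a) i, poch_succ a k, pow_succ w i, pow_succ (1 + w) k]
    simp only [norm_mul, norm_div, Complex.norm_natCast]
    have h1 := Nat.choose_succ_right_eq (i + k + 1) i
    rw [e2] at h1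
    have h2 : ((i + k + 1).choose (i + 1) : ℝ) * ((i : ℝ) + 1)
        = ((i + k + 1).choose i : ℝ) * ((k : ℝ) + 1) := by exact_mod_cast h1
    have h3 := hK k
    have h4 : ‖b - a + i‖ ≤ (1 + ‖b - a‖) * ((i : ℝ) + 1) := by
      have := norm_add_le (b - a) (i : ℂ)
      rw [Complex.norm_natCast] at this
      have h5 : (0 : ℝ) ≤ i := by positivity
      nlinarith [norm_nonneg (b - a)]
    have h6 : 3 * (((i + k + 1).choose (i + 1) : ℝ) * ‖b - a + i‖ * ‖w‖)
        ≤ ((i + k + 1).choose i : ℝ) * ‖a + k‖ * ‖1 + w‖ := by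
      have hc : (0 : ℝ) ≤ ((i + k + 1).choose (i + 1) : ℝ) := by positivity
      have hc' : (0 : ℝ) ≤ ((i + k + 1).choose i : ℝ) := by positivity
      calc 3 * (((i + k + 1).choose (i + 1) : ℝ) * ‖b - a + i‖ * ‖w‖)
          ≤ 3 * (((i + k + 1).choose (i + 1) : ℝ) * ((1 + ‖b - a‖) * ((i : ℝ) + 1)) * ‖w‖) := by
            gcongr
        _ = 3 * (((i + k + 1).choose i : ℝ) * ((k : ℝ) + 1) * (1 + ‖b - a‖) * ‖w‖) := by
            rw [← h2]; ring
        _ ≤ 3 * (((i + k + 1).choose i : ℝ) * (K * ‖a + k‖) * (1 + ‖b - a‖) * ‖w‖) := by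
            gcongr
        _ = ((i + k + 1).choose i : ℝ) * ‖a + k‖ * (3 * L * ‖w‖) := by rw [hL]; ring
        _ ≤ _ := by
            gcongr
            linarith
    have h7 : 0 ≤ ‖poch (b - a) i‖ * ‖poch a k‖ / ‖poch b (i + k + 1)‖ * ‖w ^ i‖ * ‖(1 + w) ^ k‖ := by
      positivity
    have h8 := mul_le_mul_of_nonneg_left h6 h7
    calc _ = ‖poch (b - a) i‖ * ‖poch a k‖ / ‖poch b (i + k + 1)‖ * ‖w ^ i‖ * ‖(1 + w) ^ k‖ *
          (3 * (((i + k + 1).choose (i + 1) : ℝ) * ‖b - a + i‖ * ‖w‖)) := by ring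
      _ ≤ _ := h8
      _ = _ := by ring

lemma ZF_single (a : ℂ) (ha : ∀ m : ℕ, a ≠ -(m : ℂ)) :
    ∃ r : ℝ, 0 < r ∧ ∀ n : ℕ, 1 ≤ n → ZF n (fun m => poch a (n - m)) (r * n) := by
  have h1 : ∀ m : ℕ, (1 : ℂ) ≠ -(m : ℂ) := by
    intro m h
    have h2 : ((m + 1 : ℕ) : ℂ) = 0 := by push_cast; linear_combination h
    exact absurd (Nat.cast_eq_zero.1 h2) (by omega)
  obtain ⟨r, hr, h⟩ := ZF_ratio a 1 ha h1
  refine ⟨r / 20, by positivity, fun n hn => ?_⟩
  have hn' : (0 : ℝ) < n := by exact_mod_cast hn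
  have := szego n _ _ _ _ hr (by positivity) (h n) (ZF_fact n)
  have e : r * ((n : ℝ) / 20) = r / 20 * n := by ring
  rw [e] at this
  refine ZF_congr n _ _ _ (fun m _ => ?_) this
  rw [div_mul_cancel₀ _ (poch_ne_zero 1 h1 _)]

lemma ZF_prod {ι : Type} (s : Finset ι) (n : ℕ) (a : ℕ → ℂ) (r : ℝ) (hr : 0 < r)
    (f : ι → ℕ → ℂ) (ρ : ι → ℝ) (hρ : ∀ i, 0 < ρ i) (ha : ZF n a r)
    (hf : ∀ i, ZF n (f i) (ρ i)) :
    ZF n (fun m => a m * ∏ i ∈ s, f i m) (r * ∏ i ∈ s, ρ i) := by
  classical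
  induction s using Finset.induction_on with
  | empty => simpa using ha
  | insert i s hi ih =>
    have := szego n _ _ _ _ (mul_pos hr (Finset.prod_pos (fun i _ => hρ i))) (hρ i) ih (hf i)
    simp only [Finset.prod_insert hi]
    convert this using 1
    · funext m; ring
    · ring

end Pool.Agent.P.MP_d36490_an
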