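import Pool.Agent.P.MP_d36490_an.Base

set_option autoImplicit false

open Finset Polynomial

namespace Pool.Agent.P.MP_d36490_an

lemma roots_bounded (n : ℕ) (A : ℕ → ℂ) (h0 : A 0 ≠ 0) :
    ∃ R : ℝ, ∀ z : ℂ, ∑ j ∈ range (n + 1), A j * z ^ j = 0 → ‖z‖ ≤ R := by
  set F : ℂ[X] := ∑ j ∈ range (n + 1), monomial j (A j) with hF
  have hev : ∀ z, F.eval z = ∑ j ∈ range (n + 1), A j * z ^ j := by
    intro z; simp [hF, eval_finsetSum]
  have hne : F ≠ 0 := by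
    intro h
    have := hev 0
    rw [h, Finset.sum_range_succ'] at this
    simp at this
    exact h0 this.symm
  obtain ⟨R, hR⟩ := ((F.roots.toFinset.finite_toSet).image (fun z : ℂ => ‖z‖)).bddAbove
  refine ⟨R, fun z hz => hR ⟨z, ?_, rfl⟩⟩
  simp [hne, hev, hz]

lemma E_reverse (n : ℕ) (α : ℕ → ℂ) (z : ℂ) (hz : z ≠ 0) :
    E n (fun m => α (n - m)) (-z⁻¹) * (-z) ^ n
      = ∑ j ∈ range (n + 1), (-1) ^ j * (n.choose j : ℂ) * α j * z ^ j := by
  unfold E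
  rw [Finset.sum_mul, ← Finset.sum_range_reflect]
  apply Finset.sum_congr rfl
  intro j hj
  have hj' : j ≤ n := Nat.lt_succ_iff.1 (Finset.mem_range.1 hj)
  obtain ⟨k, rfl⟩ := Nat.exists_eq_add_of_le hj'
  have e1 : j + k + 1 - 1 - j = k := by omega
  have e2 : j + k - k = j := by omega
  simp only [e1, e2]
  rw [Nat.choose_symm_add, pow_add]
  have h1 : (-z⁻¹) ^ k * (-z) ^ k = 1 := by
    rw [← mul_pow]
    have : -z⁻¹ * -z = 1 := by field_simp
    rw [this, one_pow]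
  rw [neg_pow z j]
  linear_combination (((j + k).choose k : ℂ) * α j * ((-1) ^ j * z ^ j)) * h1

lemma main_zf (q d : ℕ) (lam : ℂ) (a : Fin (q + d) → ℂ) (b : Fin q → ℂ)
    (ha : ∀ k, ∀ m : ℕ, a k ≠ -(m : ℂ)) (hb : ∀ k, ∀ m : ℕ, b k ≠ -(m : ℂ)) :
    ∃ c : ℝ, 0 < c ∧ ∃ n0 : ℕ, ∀ n : ℕ, n0 ≤ n →
      ZF n (fun m => poch ((n : ℂ) + lam) (n - m) * (∏ k, poch (a k) (n - m))
        / (∏ k, poch (b k) (n - m))) (c * (n : ℝ) ^ (d + 1)) := by
  choose r hr hr' using fun k : Fin q => ZF_ratio (a (Fin.castAdd d k)) (b k) (ha _) (hb k)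
  choose s hs hs' using fun k : Fin d => ZF_single (a (Fin.natAdd q k)) (ha _)
  obtain ⟨n0, hn0⟩ := exists_nat_ge (2 * ‖lam‖ + 4)
  have hpr : 0 < ∏ k, r k := Finset.prod_pos (fun k _ => hr k)
  have hps : 0 < ∏ k, s k := Finset.prod_pos (fun k _ => hs k)
  refine ⟨(∏ k, r k) * (∏ k, s k) / 8, by positivity, n0, fun n hn => ?_⟩
  have hn' : (n0 : ℝ) ≤ n := by exact_mod_cast hn
  have hn4 : (4 : ℝ) ≤ n := by linarith [norm_nonneg lam]
  have hn1 : 1 ≤ n := by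
    have : (1 : ℝ) ≤ n := by linarith
    exact_mod_cast this
  have h1 := ZF_bessel lam n (by linarith)
  have h2 := ZF_prod univ n _ _ (by positivity) _ r hr h1 (fun k => hr' k n)
  have h3 := ZF_prod univ n _ _ (by positivity) _ (fun k => s k * n)
    (fun k => mul_pos (hs k) (by positivity)) h2 (fun k => hs' k n hn1)
  convert h3 using 1
  · funext m
    rw [Fin.prod_univ_add, Finset.prod_div_distrib]
    ring
  · rw [Finset.prod_mul_distrib]
    simp only [Finset.prod_const, Finset.card_univ, Fintype.card_fin]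
    ring

theorem main (p q : ℕ) (hpq : q ≤ p) (lam : ℂ) (a : Fin p → ℂ) (b : Fin q → ℂ)
    (ha : ∀ k, ∀ m : ℕ, a k ≠ -(m : ℂ)) (hb : ∀ k, ∀ m : ℕ, b k ≠ -(m : ℂ)) :
    ∃ M : ℝ, ∀ n : ℕ, 1 ≤ n → ∀ z : ℂ,
      ∑ j ∈ Finset.range (n + 1),
        (ascPochhammer ℂ j).eval (-(n : ℂ)) * (ascPochhammer ℂ j).eval ((n : ℂ) + lam)
          * (∏ k, (ascPochhammer ℂ j).eval (a k)) / (∏ k, (ascPochhammer ℂ j).eval (b k))
          * (z ^ j / (j.factorial : ℂ)) = 0 →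
      ‖z‖ ≤ M * (n : ℝ) ^ ((q : ℤ) - (p : ℤ) - 1) := by
  obtain ⟨d, rfl⟩ := Nat.exists_eq_add_of_le hpq
  obtain ⟨c, hc, n0, h⟩ := main_zf q d lam a b ha hb
  have hsum : ∀ (n : ℕ) (z : ℂ), ∑ j ∈ Finset.range (n + 1),
        (ascPochhammer ℂ j).eval (-(n : ℂ)) * (ascPochhammer ℂ j).eval ((n : ℂ) + lam)
          * (∏ k, (ascPochhammer ℂ j).eval (a k)) / (∏ k, (ascPochhammer ℂ j).eval (b k))
          * (z ^ j / (j.factorial : ℂ))
      = ∑ j ∈ range (n + 1), (-1) ^ j * (n.choose j : ℂ) *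
        (poch ((n : ℂ) + lam) j * (∏ k, poch (a k) j) / (∏ k, poch (b k) j)) * z ^ j := by
    intro n z
    apply Finset.sum_congr rfl
    intro j _
    have h1 := poch_neg_nat n j
    unfold poch at h1 ⊢
    rw [h1]
    have h3 : (j.factorial : ℂ) ≠ 0 := by exact_mod_cast j.factorial_ne_zero
    field_simp
  choose R hR using fun n : ℕ => roots_bounded n (fun j => (-1) ^ j * (n.choose j : ℂ) *
        (poch ((n : ℂ) + lam) j * (∏ k, poch (a k) j) / (∏ k, poch (b k) j)))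
        (by simp [poch_zero])
  obtain ⟨M, hM⟩ := ((Set.finite_lt_nat n0).image
    (fun n : ℕ => R n * (n : ℝ) ^ (d + 1))).bddAbove
  refine ⟨max M (1 / c), fun n hn z hz => ?_⟩
  rw [hsum] at hz
  have hn' : (0 : ℝ) < n := by exact_mod_cast hn
  have hpow : (0 : ℝ) < (n : ℝ) ^ (d + 1) := by positivity
  have e : (n : ℝ) ^ ((q : ℤ) - ((q + d : ℕ) : ℤ) - 1) = ((n : ℝ) ^ (d + 1))⁻¹ := by
    rw [← zpow_natCast, ← zpow_neg]
    congr 1
    push_cast
    ring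
  rw [e, ← div_eq_mul_inv, le_div_iff₀ hpow]
  rcases lt_or_ge n n0 with h1 | h1
  · have h2 : R n * (n : ℝ) ^ (d + 1) ≤ M := hM ⟨n, h1, rfl⟩
    have h3 := mul_le_mul_of_nonneg_right (hR n z hz) hpow.le
    exact h3.trans (h2.trans (le_max_left _ _))
  · refine le_trans ?_ (le_max_right _ _)
    by_contra hcon
    rw [not_le, div_lt_iff₀ hc] at hcon
    have hz0 : z ≠ 0 := by
      rintro rfl
      simp at hcon
      linarith
    have hzn : 0 < ‖z‖ := norm_pos_iff.2 hz0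
    have h2 := h n h1 (-z⁻¹) (by
      rw [norm_neg, norm_inv, inv_eq_one_div, div_lt_iff₀ hzn]
      linarith)
    have h3 := E_reverse n (fun j => poch ((n : ℂ) + lam) j * (∏ k, poch (a k) j)
      / (∏ k, poch (b k) j)) z hz0
    rw [hz] at h3
    exact mul_ne_zero h2 (pow_ne_zero _ (neg_ne_zero.2 hz0)) h3

end Pool.Agent.P.MP_d36490_an
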