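import Mathlib

set_option autoImplicit false

open Finset Polynomial

namespace Pool.Agent.P.MP_d36490_an

/-- binomial sum attached to a coefficient sequence -/
noncomputable def E (n : ℕ) (a : ℕ → ℂ) (w : ℂ) : ℂ :=
  ∑ m ∈ range (n + 1), (n.choose m : ℂ) * a m * w ^ m

/-- zero-free on the open disc of radius r -/
def ZF (n : ℕ) (a : ℕ → ℂ) (r : ℝ) : Prop := ∀ w : ℂ, ‖w‖ < r → E n a w ≠ 0

noncomputable def Q (s : Multiset ℂ) : ℂ[X] := (s.map (fun g => 1 + C g * X)).prod

noncomputable def EP (n : ℕ) (a : ℕ → ℂ) : ℂ[X] :=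
  ∑ m ∈ range (n + 1), monomial m ((n.choose m : ℂ) * a m)

lemma EP_eval (n : ℕ) (a : ℕ → ℂ) (w : ℂ) : (EP n a).eval w = E n a w := by
  simp [EP, E, eval_finsetSum]

lemma EP_coeff (n : ℕ) (a : ℕ → ℂ) (m : ℕ) (hm : m ≤ n) :
    (EP n a).coeff m = (n.choose m : ℂ) * a m := by
  simp only [EP, finsetSum_coeff, coeff_monomial]
  rw [Finset.sum_eq_single m]
  · simp
  · intro b _ hb; simp [hb]
  · intro h; exact absurd (Finset.mem_range.2 (Nat.lt_succ_of_le hm)) h

lemma EP_natDegree (n : ℕ) (a : ℕ → ℂ) : (EP n a).natDegree ≤ n := by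
  unfold EP
  apply natDegree_sum_le_of_forall_le
  intro i hi
  exact (natDegree_monomial_le _).trans (Nat.lt_succ_iff.1 (Finset.mem_range.1 hi))

lemma EP_deriv_eval (n : ℕ) (a : ℕ → ℂ) (w : ℂ) :
    (derivative (EP (n + 1) a)).eval w = (n + 1) * E n (fun m => a (m + 1)) w := by
  unfold EP E
  rw [derivative_sum, eval_finsetSum, Finset.sum_range_succ', Finset.mul_sum]
  simp only [derivative_monomial, eval_monomial, Nat.cast_zero, mul_zero, zero_mul, add_zero,
    Nat.add_sub_cancel]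
  apply Finset.sum_congr rfl
  intro m _
  have h := Nat.add_one_mul_choose_eq n m
  have h' : ((n : ℂ) + 1) * (n.choose m : ℂ) = ((n + 1).choose (m + 1) : ℂ) * ((m : ℂ) + 1) := by
    exact_mod_cast h
  push_cast
  linear_combination (-(a (m + 1)) * w ^ m) * h'

lemma E_succ (n : ℕ) (a : ℕ → ℂ) (w : ℂ) :
    E (n + 1) a w = E n a w + w * E n (fun m => a (m + 1)) w := by
  unfold E
  have h := Finset.sum_choose_succ_mul (fun i _ => a i * w ^ i) n
  simp only [mul_assoc]
  rw [h, Finset.mul_sum]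
  congr 1
  apply Finset.sum_congr rfl
  intro m _
  ring

lemma Q_zero : Q 0 = 1 := by simp [Q]

lemma Q_cons (g : ℂ) (s : Multiset ℂ) : Q (g ::ₘ s) = (1 + C g * X) * Q s := by simp [Q]

lemma Q_natDegree (s : Multiset ℂ) : (Q s).natDegree ≤ s.card := by
  induction s using Multiset.induction_on with
  | empty => simp [Q]
  | cons g s ih =>
    rw [Q_cons, Multiset.card_cons]
    refine natDegree_mul_le.trans ?_
    have : (1 + C g * X : ℂ[X]).natDegree ≤ 1 := by
      compute_degree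
    omega

lemma Q_deriv (s : Multiset ℂ) (z : ℂ) (hz : ∀ g ∈ s, 1 + g * z ≠ 0) :
    (derivative (Q s)).eval z = (Q s).eval z * (s.map (fun g => g / (1 + g * z))).sum := by
  induction s using Multiset.induction_on with
  | empty => simp [Q]
  | cons g s ih =>
    have h1 : 1 + g * z ≠ 0 := hz g (Multiset.mem_cons_self _ _)
    have ih' := ih (fun x hx => hz x (Multiset.mem_cons_of_mem hx))
    rw [Q_cons, derivative_mul, eval_add, eval_mul, eval_mul, eval_mul, ih']
    simp only [Multiset.map_cons, Multiset.sum_cons]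
    simp
    field_simp

lemma factor (n : ℕ) (F : ℂ[X]) (hF : F.natDegree ≤ n)
    (h : ∀ w : ℂ, ‖w‖ < 1 → F.eval w ≠ 0) :
    ∃ s : Multiset ℂ, s.card = n ∧ (∀ g ∈ s, ‖g‖ ≤ 1) ∧ F = C (F.eval 0) * Q s := by
  have hsp := IsAlgClosed.splits F
  have hcard : F.roots.card = F.natDegree := (splits_iff_card_roots.mp hsp)
  have hr : ∀ r ∈ F.roots, 1 ≤ ‖r‖ := by
    intro r hr
    by_contra hlt
    exact h r (not_le.1 hlt) (isRoot_of_mem_roots hr)
  refine ⟨F.roots.map (fun r => -r⁻¹) + Multiset.replicate (n - F.natDegree) 0, ?_, ?_, ?_⟩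
  · simp [hcard]; omega
  · intro g hg
    rw [Multiset.mem_add] at hg
    rcases hg with hg | hg
    · obtain ⟨r, hr', rfl⟩ := Multiset.mem_map.1 hg
      rw [norm_neg, norm_inv]
      exact inv_le_one_of_one_le₀ (hr r hr')
    · rw [Multiset.eq_of_mem_replicate hg]; simp
  · have key : ∀ t : Multiset ℂ, (∀ r ∈ t, r ≠ 0) →
        (t.map (fun r => X - C r)).prod
          = C ((t.map (fun r => X - C r)).prod.eval 0) * Q (t.map (fun r => -r⁻¹)) := by
      intro t
      induction t using Multiset.induction_on with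
      | empty => simp [Q]
      | cons r t ih =>
        intro ht
        have hr0 : r ≠ 0 := ht r (Multiset.mem_cons_self _ _)
        have ih' := ih (fun x hx => ht x (Multiset.mem_cons_of_mem hx))
        simp only [Multiset.map_cons, Multiset.prod_cons, Q_cons, eval_mul, C_mul]
        have e1 : (X - C r : ℂ[X]) = C (eval 0 (X - C r)) * (1 + C (-r⁻¹) * X) := by
          simp only [eval_sub, eval_X, eval_C, zero_sub]
          rw [mul_add, ← mul_assoc, ← C_mul]
          have : -r * -r⁻¹ = 1 := by field_simp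
          rw [this]; simp; ring
        conv_lhs => rw [ih', e1]
        ring
    have hQ : Q (F.roots.map (fun r => -r⁻¹) + Multiset.replicate (n - F.natDegree) 0)
        = Q (F.roots.map (fun r => -r⁻¹)) := by
      simp [Q]
    rw [hQ]
    have hne : ∀ r ∈ F.roots, r ≠ 0 := by
      intro r hr' h0
      have := hr r hr'
      rw [h0] at this; simp at this; linarith
    have h2 := key F.roots hne
    have h3 := hsp.eq_prod_roots
    have h4 : F.eval 0 = F.leadingCoeff * ((F.roots.map (fun r => X - C r)).prod.eval 0) := by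
      conv_lhs => rw [h3]
      simp
    rw [h4, C_mul, mul_assoc, ← h2]
    exact h3

lemma disc_ineq (z g : ℂ) (hz : ‖z‖ ≤ 1) (hg : ‖g‖ ≤ 1) :
    ‖g + (starRingEnd ℂ) z‖ ≤ ‖1 + g * z‖ := by
  have hz2 : z.re ^ 2 + z.im ^ 2 ≤ 1 := by
    have := Complex.sq_norm z
    rw [Complex.normSq_apply] at this
    nlinarith [norm_nonneg z]
  have hg2 : g.re ^ 2 + g.im ^ 2 ≤ 1 := by
    have := Complex.sq_norm g
    rw [Complex.normSq_apply] at this
    nlinarith [norm_nonneg g]
  have key : ‖g + (starRingEnd ℂ) z‖ ^ 2 ≤ ‖1 + g * z‖ ^ 2 := by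
    rw [Complex.sq_norm, Complex.sq_norm, Complex.normSq_apply, Complex.normSq_apply]
    simp only [Complex.add_re, Complex.add_im, Complex.conj_re, Complex.conj_im, Complex.mul_re,
      Complex.mul_im, Complex.one_re, Complex.one_im]
    nlinarith [mul_nonneg (sub_nonneg.2 hz2) (sub_nonneg.2 hg2)]
  exact (pow_le_pow_iff_left₀ (norm_nonneg _) (norm_nonneg _) two_ne_zero).1 key

lemma disc_ineq2 (z x : ℂ) (hz : ‖z‖ < 1) (hx : ‖x‖ < 1) :
    ‖x - z‖ < ‖1 - (starRingEnd ℂ) z * x‖ := by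
  have hz2 : z.re ^ 2 + z.im ^ 2 < 1 := by
    have := Complex.sq_norm z
    rw [Complex.normSq_apply] at this
    nlinarith [norm_nonneg z]
  have hx2 : x.re ^ 2 + x.im ^ 2 < 1 := by
    have := Complex.sq_norm x
    rw [Complex.normSq_apply] at this
    nlinarith [norm_nonneg x]
  have key : ‖x - z‖ ^ 2 < ‖1 - (starRingEnd ℂ) z * x‖ ^ 2 := by
    rw [Complex.sq_norm, Complex.sq_norm, Complex.normSq_apply, Complex.normSq_apply]
    simp only [Complex.sub_re, Complex.sub_im, Complex.conj_re, Complex.conj_im, Complex.mul_re,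
      Complex.mul_im, Complex.one_re, Complex.one_im]
    nlinarith [mul_pos (sub_pos.2 hz2) (sub_pos.2 hx2)]
  exact lt_of_pow_lt_pow_left₀ 2 (norm_nonneg _) key

lemma one_add_ne (z g : ℂ) (hz : ‖z‖ < 1) (hg : ‖g‖ ≤ 1) : 1 + g * z ≠ 0 := by
  intro h
  have h1 : g * z = -1 := by linear_combination h
  have h2 : ‖g * z‖ = 1 := by rw [h1]; simp
  rw [norm_mul] at h2
  nlinarith [norm_nonneg z, norm_nonneg g]

lemma mobius_bound (z x g : ℂ) (hz : ‖z‖ < 1) (hg : ‖g‖ ≤ 1) :
    ‖(1 - z * (starRingEnd ℂ) z) * (1 + (x - z) * (g / (1 + g * z)))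
      - (1 - (starRingEnd ℂ) z * x)‖ ≤ ‖x - z‖ := by
  have h1 := one_add_ne z g hz hg
  have e : (1 - z * (starRingEnd ℂ) z) * (1 + (x - z) * (g / (1 + g * z)))
      - (1 - (starRingEnd ℂ) z * x) = (x - z) * ((g + (starRingEnd ℂ) z) / (1 + g * z)) := by
    have hi : (1 + g * z) * (1 + g * z)⁻¹ = 1 := mul_inv_cancel₀ h1
    simp only [div_eq_mul_inv]
    linear_combination (-(x - z) * (starRingEnd ℂ) z) * hi
  rw [e, norm_mul, norm_div]
  have h2 : ‖g + (starRingEnd ℂ) z‖ / ‖1 + g * z‖ ≤ 1 :=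
    (div_le_one (norm_pos_iff.2 h1)).2 (disc_ineq z g hz.le hg)
  nlinarith [norm_nonneg (x - z)]

lemma sum_bound (z x : ℂ) (hz : ‖z‖ < 1) (s : Multiset ℂ) (hs : ∀ g ∈ s, ‖g‖ ≤ 1) :
    ‖(1 - z * (starRingEnd ℂ) z) *
        ((s.card : ℂ) + (x - z) * (s.map (fun g => g / (1 + g * z))).sum)
      - (s.card : ℂ) * (1 - (starRingEnd ℂ) z * x)‖ ≤ s.card * ‖x - z‖ := by
  induction s using Multiset.induction_on with
  | empty => simp
  | cons g s ih =>
    have ih' := ih (fun y hy => hs y (Multiset.mem_cons_of_mem hy))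
    have h1 := mobius_bound z x g hz (hs g (Multiset.mem_cons_self _ _))
    simp only [Multiset.map_cons, Multiset.sum_cons, Multiset.card_cons]
    push_cast
    have := norm_add_le_of_le h1 ih'
    convert this using 1
    · congr 1; ring
    · ring

/-- Laguerre's theorem on the polar derivative -/
lemma laguerre (n : ℕ) (a : ℕ → ℂ) (h : ZF (n + 1) a 1) (x : ℂ) (hx : ‖x‖ < 1) :
    ZF n (fun m => a m + x * a (m + 1)) 1 := by
  intro z hz h0
  obtain ⟨s, hcard, hs, hF⟩ := factor (n + 1) (EP (n + 1) a) (EP_natDegree _ _)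
    (fun w hw => by rw [EP_eval]; exact h w hw)
  have hne : ∀ g ∈ s, 1 + g * z ≠ 0 := fun g hg => one_add_ne z g hz (hs g hg)
  have e1 : E n (fun m => a m + x * a (m + 1)) z
      = E n a z + x * E n (fun m => a (m + 1)) z := by
    unfold E
    rw [Finset.mul_sum, ← Finset.sum_add_distrib]
    apply Finset.sum_congr rfl
    intro m _
    ring
  have e2 := E_succ n a z
  have e3 := EP_deriv_eval n a z
  have e4 : (derivative (EP (n + 1) a)).eval z
      = E (n + 1) a z * (s.map (fun g => g / (1 + g * z))).sum := by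
    rw [← EP_eval]
    conv_lhs => rw [hF]
    conv_rhs => rw [hF]
    rw [derivative_C_mul, eval_mul, eval_mul, Q_deriv s z hne]
    simp only [eval_C]
    ring
  have hE := h z hz
  have e5 : E (n + 1) a z *
      ((s.card : ℂ) + (x - z) * (s.map (fun g => g / (1 + g * z))).sum) = 0 := by
    rw [hcard]
    push_cast
    rw [e1] at h0
    linear_combination ((n : ℂ) + 1) * h0 + ((n : ℂ) + 1) * e2 - (x - z) * e4 + (x - z) * e3
  have e6 := (mul_eq_zero.1 e5).resolve_left hE
  have hb := sum_bound z x hz s hs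
  rw [e6, hcard] at hb
  simp only [mul_zero, zero_sub, norm_neg, norm_mul, Complex.norm_natCast] at hb
  have := disc_ineq2 z x hz hx
  have hpos : (0 : ℝ) < ((n + 1 : ℕ) : ℝ) := by positivity
  nlinarith

/-- Grace-Walsh-Szego on the disc -/
lemma grace (w : ℂ) (hw : ‖w‖ < 1) (s : Multiset ℂ) :
    ∀ (a : ℕ → ℂ), ZF s.card a 1 → (∀ g ∈ s, ‖g‖ ≤ 1) →
      ∑ m ∈ range (s.card + 1), a m * (Q s).coeff m * w ^ m ≠ 0 := by
  induction s using Multiset.induction_on with
  | empty =>
    intro a ha _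
    have := ha 0 (by simp)
    simpa [E, Q] using this
  | cons g s ih =>
    intro a ha hs
    rw [Multiset.card_cons] at ha ⊢
    have hg : ‖g * w‖ < 1 := by
      rw [norm_mul]
      have := hs g (Multiset.mem_cons_self _ _)
      nlinarith [norm_nonneg w, norm_nonneg g]
    have h1 := ih _ (laguerre _ a ha (g * w) hg) (fun y hy => hs y (Multiset.mem_cons_of_mem hy))
    have hz : (Q s).coeff (s.card + 1) = 0 :=
      coeff_eq_zero_of_natDegree_lt (Nat.lt_succ_of_le (Q_natDegree s))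
    have e : ∑ m ∈ range (s.card + 1 + 1), a m * (Q (g ::ₘ s)).coeff m * w ^ m
        = ∑ m ∈ range (s.card + 1), (a m + g * w * a (m + 1)) * (Q s).coeff m * w ^ m := by
      rw [Q_cons, add_mul, one_mul]
      simp only [coeff_add, mul_add, add_mul, Finset.sum_add_distrib]
      congr 1
      · rw [Finset.sum_range_succ, hz]; simp
      · rw [Finset.sum_range_succ']
        simp only [mul_assoc, coeff_C_mul, coeff_X_mul, coeff_X_mul_zero]
        simp only [mul_zero, zero_mul, add_zero]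
        apply Finset.sum_congr rfl
        intro m _
        ring
    rw [e]
    exact h1

lemma szego_one (n : ℕ) (a b : ℕ → ℂ) (ha : ZF n a 1) (hb : ZF n b 1) :
    ZF n (fun m => a m * b m) 1 := by
  intro w hw
  obtain ⟨s, hcard, hs, hF⟩ := factor n (EP n b) (EP_natDegree _ _)
    (fun w hw => by rw [EP_eval]; exact hb w hw)
  have h0 : (EP n b).eval 0 ≠ 0 := by rw [EP_eval]; exact hb 0 (by simp)
  have h1 := grace w hw s a (hcard ▸ ha) hs
  rw [hcard] at h1
  have e : E n (fun m => a m * b m) w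
      = (EP n b).eval 0 * ∑ m ∈ range (n + 1), a m * (Q s).coeff m * w ^ m := by
    unfold E
    rw [Finset.mul_sum]
    apply Finset.sum_congr rfl
    intro m hm
    have h2 := EP_coeff n b m (Nat.lt_succ_iff.1 (Finset.mem_range.1 hm))
    have h3 : (EP n b).coeff m = (EP n b).eval 0 * (Q s).coeff m := by
      conv_lhs => rw [hF]
      rw [coeff_C_mul]
    linear_combination (a m * w ^ m) * (h3 - h2)
  rw [e]
  exact mul_ne_zero h0 h1

lemma E_scale (n : ℕ) (a : ℕ → ℂ) (r w : ℂ) :
    E n (fun m => a m * r ^ m) w = E n a (r * w) := by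
  unfold E
  apply Finset.sum_congr rfl
  intro m _
  ring

lemma ZF_scale (n : ℕ) (a : ℕ → ℂ) (r : ℝ) (hr : 0 < r) :
    ZF n a r ↔ ZF n (fun m => a m * (r : ℂ) ^ m) 1 := by
  constructor
  · intro h w hw
    rw [E_scale]
    apply h
    rw [norm_mul, Complex.norm_real, Real.norm_of_nonneg hr.le]
    nlinarith
  · intro h w hw
    have hr' : (r : ℂ) ≠ 0 := by exact_mod_cast hr.ne'
    have := h (w / r) (by
      rw [norm_div, Complex.norm_real, Real.norm_of_nonneg hr.le, div_lt_one hr]; exact hw)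
    rw [E_scale] at this
    rwa [mul_div_cancel₀ _ hr'] at this

/-- Schur-Szego composition theorem for discs -/
lemma szego (n : ℕ) (a b : ℕ → ℂ) (r s : ℝ) (hr : 0 < r) (hs : 0 < s)
    (ha : ZF n a r) (hb : ZF n b s) : ZF n (fun m => a m * b m) (r * s) := by
  rw [ZF_scale _ _ _ (mul_pos hr hs)]
  have := szego_one n _ _ ((ZF_scale _ _ _ hr).1 ha) ((ZF_scale _ _ _ hs).1 hb)
  convert this using 2
  push_cast
  ring

lemma ZF_congr (n : ℕ) (a b : ℕ → ℂ) (r : ℝ) (h : ∀ m ≤ n, a m = b m) (ha : ZF n a r) :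
    ZF n b r := by
  intro w hw
  have : E n b w = E n a w := by
    unfold E
    apply Finset.sum_congr rfl
    intro m hm
    rw [h m (Nat.lt_succ_iff.1 (Finset.mem_range.1 hm))]
  rw [this]
  exact ha w hw

lemma ZF_mono (n : ℕ) (a : ℕ → ℂ) (r s : ℝ) (h : s ≤ r) (ha : ZF n a r) : ZF n a s :=
  fun w hw => ha w (lt_of_lt_of_le hw h)

end Pool.Agent.P.MP_d36490_an
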